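import Pool.Agent.U481.GL.Cmp
import Pool.Agent.U873.HW.Weak
import Pool.Agent.U399.HW.Strong
import Pool.Agent.U433.HW.MUCK
import Pool.Agent.U111.HW.Stop
import Pool.Agent.U83.HW.SUM
import Pool.Agent.U88.GL.MES
import Pool.Agent.U438.GL.STEPT
import Pool.Agent.U212.GL.HMWT
import Pool.Agent.U480.GL.Dec
import Pool.Agent.U785.GL.APC
import Pool.Agent.U606.GL.Drv
import Pool.Agent.U492.GL.SUB
import Pool.Agent.U479.GL.INT
import Pool.Agent.U208.GL.NA
import Pool.Agent.U669.GL.NB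
import Pool.Agent.U481.GL.Opn
import Pool.Agent.U255.GL.APE
import Pool.Agent.U574.GL.ITERT
import Pool.Agent.U96.GL.LIM
import Pool.Agent.U978.GL.L2
import Pool.Agent.U682.GL.WK
import Pool.Agent.U95.GL.KRN

set_option autoImplicit false

open MeasureTheory Filter Topology Set
open scoped ENNReal NNReal Real

namespace Pool.Agent.U481.GL

open Pool.Agent.U481.HW

theorem main_of (h_l2 : S_l2) (h_wk : S_sub → S_l2 → S_wk) (h_krn : S_krn) :
    (∀ l p : ℝ, 1 < l → l ≤ 2 → 2 / l < p → p < 2 → ∀ U : ℝ → ℝ≥0, IsWeight U →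
      (Good l p U ↔ Ap p U ∧ Br (l * p / 2) U)) ∧ S_int := by
  have hw := Pool.Agent.U873.HW.Weak.main
  have hst := Pool.Agent.U399.HW.Strong.main hw
  exact assembly hw Pool.Agent.U111.HW.Stop.main
    (Pool.Agent.U83.HW.SUM.main hst (Pool.Agent.U433.HW.MUCK.main hst))
    Pool.Agent.U606.GL.Drv.main Pool.Agent.U492.GL.main h_l2 h_wk h_krn
    Pool.Agent.U438.GL.STEPT.main Pool.Agent.U574.GL.ITERT.main Pool.Agent.U212.GL.HMWT.main
    Pool.Agent.U255.GL.main Pool.Agent.U480.GL.main Pool.Agent.U481.GL.OPN.main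
    Pool.Agent.U785.GL.main Pool.Agent.U479.GL.INT.main Pool.Agent.U88.GL.MES.main
    cmp_main Pool.Agent.U96.GL.LIM.main Pool.Agent.U669.GL.NB.main Pool.Agent.U208.GL.NA.main

/-- The full answer: the weights of the inequality of `g_λ^*` are exactly those in `A_p ∩ B_{λp/2}`. -/
theorem main :
    (∀ l p : ℝ, 1 < l → l ≤ 2 → 2 / l < p → p < 2 → ∀ U : ℝ → ℝ≥0, IsWeight U →
      (Good l p U ↔ Ap p U ∧ Br (l * p / 2) U)) ∧ S_int :=
  main_of Pool.Agent.U978.GL.main Pool.Agent.U682.GL.main Pool.Agent.U95.GL.main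

end Pool.Agent.U481.GL
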