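import Pool.Agent.U481.GL.Stm

set_option autoImplicit false

open MeasureTheory Filter Topology Set
open scoped ENNReal NNReal Real

namespace Pool.Agent.U481.GL

open Pool.Agent.U481.HW

theorem measurable_SG (a : ℝ) {G : ℝ × ℝ → ℝ≥0∞} (hG : Measurable G) : Measurable (SG a G) := by
  have h1 : Measurable fun u : ℝ × (ℝ × ℝ) => (cone a u.1).indicator G u.2 := by
    have h2 : (fun u : ℝ × (ℝ × ℝ) => (cone a u.1).indicator G u.2) =
        {u : ℝ × (ℝ × ℝ) | |u.2.1 - u.1| < a * u.2.2}.indicator (fun u => G u.2) := by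
      funext u
      by_cases h : |u.2.1 - u.1| < a * u.2.2
      · rw [indicator_of_mem (show u.2 ∈ cone a u.1 from h), indicator_of_mem (show u ∈ _ from h)]
      · rw [indicator_of_notMem (show u.2 ∉ cone a u.1 from h), indicator_of_notMem (show u ∉ _ from h)]
    rw [h2]
    refine (hG.comp measurable_snd).indicator ?_
    refine (isOpen_lt ?_ ?_).measurableSet
    · fun_prop
    · fun_prop
  have h3 : Measurable fun x : ℝ => ∫⁻ q, (cone a x).indicator G q := h1.lintegral_prod_right'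
  have h4 : SG a G = fun x => (∫⁻ q, (cone a x).indicator G q) ^ (1 / 2 : ℝ) := by
    funext x
    have h5 : MeasurableSet (cone a x) := by
      refine (isOpen_lt ?_ ?_).measurableSet
      · fun_prop
      · fun_prop
    rw [SG, lintegral_indicator h5]
  rw [h4]
  exact h3.pow_const _

theorem cmp_main (hcz : CZop SF) (h_hmw : S_hmwT) (h_ape : S_ape) (h_dec : S_dec) (h_opn : S_opn)
    (h_apc : S_apc) (h_mes : S_mes) : S_cmp := by
  intro l p hl hl2 hp hp2 U hAp hBr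
  have h1 : 1 < p := by
    have h2 : 1 ≤ 2 / l := by rw [le_div_iff₀ (by linarith)]; linarith
    linarith
  have hr : 0 < l * p / 2 := by positivity
  obtain ⟨K, hK⟩ := h_apc p h1 U hAp
  obtain ⟨C1, hC1, H1⟩ := h_hmw SF hcz p h1 (fun x => (U x : ℝ≥0∞)) K hK
  obtain ⟨s, hs0, hsr, K2, hK2, H2⟩ := h_opn (l * p / 2) hr U hAp.1 hBr
  obtain ⟨C3, hC3, H3⟩ := h_ape p (by linarith) hp2 K2 hK2
  have hUm : Measurable (fun x => (U x : ℝ≥0∞)) := hAp.1.meas.coe_nnreal_ennreal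
  set μ : Measure ℝ := volume.withDensity (fun x => (U x : ℝ≥0∞)) with hμ
  have hμI : ∀ a b : ℝ, μ (Ioo a b) = ∫⁻ x in Ioo a b, (U x : ℝ≥0∞) := by
    intro a b
    rw [hμ, withDensity_apply _ measurableSet_Ioo]
  have hfin : ∀ a b : ℝ, μ (Ioo a b) < ⊤ := fun a b => by rw [hμI]; exact hAp.1.fin a b
  set ρ : ℝ≥0∞ := ENNReal.ofReal ((2 : ℝ) ^ (-(l * p / 2 - s))) with hρ
  have hρ1 : ρ < 1 := by
    rw [hρ, ← ENNReal.ofReal_one]
    refine (ENNReal.ofReal_lt_ofReal_iff one_pos).2 ?_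
    exact Real.rpow_lt_one_of_one_lt_of_neg (by norm_num) (by linarith)
  refine ⟨ENNReal.ofReal ((2 : ℝ) ^ (l * p / 2)) * (C3 * (1 - ρ)⁻¹) * C1, ?_, ?_⟩
  · refine ENNReal.mul_lt_top (ENNReal.mul_lt_top ENNReal.ofReal_lt_top
      (ENNReal.mul_lt_top hC3 ?_)) hC1
    rw [ENNReal.inv_lt_top]
    exact tsub_pos_of_lt hρ1
  intro f hf hsupp
  have hG : Measurable (G2 f) := by
    apply h_mes
    refine Integrable.mono' hf.norm ?_ (Eventually.of_forall fun x => ?_)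
    · refine AEStronglyMeasurable.div₀ hf.aestronglyMeasurable ?_
      exact (Continuous.aestronglyMeasurable (by fun_prop))
    · rw [norm_div, Complex.norm_real, Real.norm_eq_abs, abs_of_pos (by positivity)]
      exact div_le_self (norm_nonneg _) (by nlinarith [sq_nonneg x])
  have hmS : ∀ a : ℝ, Measurable fun x => (SG a (G2 f) x) ^ p := fun a =>
    (measurable_SG a hG).pow_const p
  have hconv : ∀ a : ℝ, (∫⁻ x, (SG a (G2 f) x) ^ p ∂μ) =
      ∫⁻ x, (SG a (G2 f) x) ^ p * (U x : ℝ≥0∞) := by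
    intro a
    rw [hμ, lintegral_withDensity_eq_lintegral_mul _ hUm (hmS a)]
    exact lintegral_congr fun x => by simp [mul_comm]
  have hk : ∀ k : ℕ, (∫⁻ x, (SG ((2 : ℝ) ^ k) (G2 f) x) ^ p * (U x : ℝ≥0∞)) ≤
      C3 * ENNReal.ofReal (((2 : ℝ) ^ k) ^ s) * ∫⁻ x, (SF f x) ^ p * (U x : ℝ≥0∞) := by
    intro k
    have h5 := H3 μ hfin s ((2 : ℝ) ^ k) hs0 (one_le_pow₀ (by norm_num)) ?_ (G2 f) hG
    · rw [hconv, hconv] at h5
      exact h5
    · intro x y hy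
      rw [hμI, hμI]
      exact H2 _ x y (one_le_pow₀ (by norm_num)) hy
  have hterm : ∀ k : ℕ, ENNReal.ofReal ((2 : ℝ) ^ (-(k * (l * p / 2)))) *
      (C3 * ENNReal.ofReal (((2 : ℝ) ^ k) ^ s)) = C3 * ρ ^ k := by
    intro k
    rw [mul_left_comm, ← ENNReal.ofReal_mul (by positivity), hρ, ← ENNReal.ofReal_pow (by positivity)]
    congr 2
    rw [← Real.rpow_natCast (2 : ℝ) k, ← Real.rpow_mul (by norm_num), ← Real.rpow_add (by norm_num),
      ← Real.rpow_natCast ((2 : ℝ) ^ (-(l * p / 2 - s))) k, ← Real.rpow_mul (by norm_num)]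
    congr 1
    ring
  calc (∫⁻ x, (GS l (G2 f) x) ^ p * (U x : ℝ≥0∞))
      ≤ ∫⁻ x, (ENNReal.ofReal ((2 : ℝ) ^ (l * p / 2)) *
          ∑' k : ℕ, ENNReal.ofReal ((2 : ℝ) ^ (-(k * (l * p / 2)))) *
            (SG ((2 : ℝ) ^ k) (G2 f) x) ^ p) * (U x : ℝ≥0∞) :=
        lintegral_mono fun x => by
          gcongr
          exact h_dec l p (by linarith) (by linarith) hp2.le (G2 f) hG x
    _ = ∫⁻ x, ENNReal.ofReal ((2 : ℝ) ^ (l * p / 2)) *
          ∑' k : ℕ, ENNReal.ofReal ((2 : ℝ) ^ (-(k * (l * p / 2)))) *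
            ((SG ((2 : ℝ) ^ k) (G2 f) x) ^ p * (U x : ℝ≥0∞)) := by
        refine lintegral_congr fun x => ?_
        rw [mul_assoc, ← ENNReal.tsum_mul_right]
        simp only [mul_assoc]
    _ = ENNReal.ofReal ((2 : ℝ) ^ (l * p / 2)) *
          ∑' k : ℕ, ENNReal.ofReal ((2 : ℝ) ^ (-(k * (l * p / 2)))) *
            ∫⁻ x, (SG ((2 : ℝ) ^ k) (G2 f) x) ^ p * (U x : ℝ≥0∞) := by
        rw [lintegral_const_mul' _ _ ENNReal.ofReal_ne_top, lintegral_tsum]
        · congr 1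
          refine tsum_congr fun k => ?_
          rw [lintegral_const_mul' _ _ ENNReal.ofReal_ne_top]
        · intro k
          exact (((hmS _).mul hUm).const_mul _).aemeasurable
    _ ≤ ENNReal.ofReal ((2 : ℝ) ^ (l * p / 2)) *
          ∑' k : ℕ, ENNReal.ofReal ((2 : ℝ) ^ (-(k * (l * p / 2)))) *
            (C3 * ENNReal.ofReal (((2 : ℝ) ^ k) ^ s) * ∫⁻ x, (SF f x) ^ p * (U x : ℝ≥0∞)) := by
        gcongr with k
        exact hk k
    _ = ENNReal.ofReal ((2 : ℝ) ^ (l * p / 2)) *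
          ((∑' k : ℕ, C3 * ρ ^ k) * ∫⁻ x, (SF f x) ^ p * (U x : ℝ≥0∞)) := by
        rw [← ENNReal.tsum_mul_right]
        congr 2
        funext k
        rw [← mul_assoc, hterm]
    _ = ENNReal.ofReal ((2 : ℝ) ^ (l * p / 2)) *
          ((C3 * (1 - ρ)⁻¹) * ∫⁻ x, (SF f x) ^ p * (U x : ℝ≥0∞)) := by
        rw [ENNReal.tsum_mul_left, ENNReal.tsum_geometric]
    _ ≤ ENNReal.ofReal ((2 : ℝ) ^ (l * p / 2)) *
          ((C3 * (1 - ρ)⁻¹) * (C1 * ∫⁻ x, ‖f x‖ₑ ^ p * (U x : ℝ≥0∞))) := by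
        gcongr
        exact H1 f hf hsupp
    _ = ENNReal.ofReal ((2 : ℝ) ^ (l * p / 2)) * (C3 * (1 - ρ)⁻¹) * C1 *
          ∫⁻ x, ‖f x‖ₑ ^ p * (U x : ℝ≥0∞) := by ring

end Pool.Agent.U481.GL
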