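import Pool.Agent.U481.HW.Stm

set_option autoImplicit false

/-!
Project GL (problem MP_842e08_an): all weights for the inequality of the function `g_λ^*` in `L^p(U)`,
`1 < λ ≤ 2`, `2/λ < p < 2`: exactly `U ∈ A_p ∩ B_{λp/2}`. Definitions and the statements of the packages.
-/

open MeasureTheory Filter Topology Set
open scoped ENNReal NNReal Real

namespace Pool.Agent.U481.GL

open Pool.Agent.U481.HW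

/-! ### Definitions used by the final theorem -/

/-- The Poisson integral `f(z,y) = (1/π) ∫ y f(z-x) / (x² + y²) dx`. -/
noncomputable def poi (f : ℝ → ℂ) (z y : ℝ) : ℂ :=
  (1 / (π : ℂ)) * ∫ x, ((y / (x ^ 2 + y ^ 2) : ℝ) : ℂ) * f (z - x)

/-- `|∇ f(z,y)|²` (both partial derivatives of the Poisson integral), `q = (z,y)`. -/
noncomputable def gr (f : ℝ → ℂ) (q : ℝ × ℝ) : ℝ≥0∞ :=
  ‖deriv (fun z => poi f z q.2) q.1‖ₑ ^ 2 + ‖deriv (fun y => poi f q.1 y) q.2‖ₑ ^ 2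

/-- The function `g_λ^*` built from a nonnegative function `G` (in place of `|∇f|²`) on the upper
half-plane. -/
noncomputable def GS (l : ℝ) (G : ℝ × ℝ → ℝ≥0∞) (x : ℝ) : ℝ≥0∞ :=
  (∫⁻ q in {q : ℝ × ℝ | 0 < q.2}, ENNReal.ofReal ((q.2 / (|x - q.1| + q.2)) ^ l) * G q) ^ (1 / 2 : ℝ)

/-- `g_λ^*(x)`. -/
noncomputable def gstar (l : ℝ) (f : ℝ → ℂ) (x : ℝ) : ℝ≥0∞ := GS l (gr f) x

/-- The inequality `(∗)`: the functions `f` are those with finite right side for which the Poisson integral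
converges absolutely. -/
def Good (l p : ℝ) (U : ℝ → ℝ≥0) : Prop :=
  ∃ C : ℝ≥0∞, C < ⊤ ∧ ∀ f : ℝ → ℂ, Integrable (fun x => f x / ((1 + x ^ 2 : ℝ) : ℂ)) →
    (∫⁻ x, ‖f x‖ₑ ^ p * (U x : ℝ≥0∞)) < ⊤ →
    (∫⁻ x, (gstar l f x) ^ p * (U x : ℝ≥0∞)) ≤ C * ∫⁻ x, ‖f x‖ₑ ^ p * (U x : ℝ≥0∞)

/-- The class `B_r`. -/
def Br (r : ℝ) (U : ℝ → ℝ≥0) : Prop :=
  ∃ K : ℝ≥0∞, K < ⊤ ∧ ∀ a b : ℝ, a < b →
    (∫⁻ x, ENNReal.ofReal ((b - a) ^ (r - 1) / ((b - a) ^ r + |x - (a + b) / 2| ^ r)) * (U x : ℝ≥0∞))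
      ≤ K * ENNReal.ofReal (1 / (b - a)) * ∫⁻ x in Ioo a b, (U x : ℝ≥0∞)

/-! ### Kernels -/

/-- `∂_x` of the Poisson kernel `y / (π (x² + y²))`. -/
noncomputable def kz (x y : ℝ) : ℝ := -(2 * x * y) / (π * (x ^ 2 + y ^ 2) ^ 2)

/-- `∂_y` of the Poisson kernel. -/
noncomputable def ky (x y : ℝ) : ℝ := (x ^ 2 - y ^ 2) / (π * (x ^ 2 + y ^ 2) ^ 2)

noncomputable def Gz (f : ℝ → ℂ) (q : ℝ × ℝ) : ℂ := ∫ t, (kz (q.1 - t) q.2 : ℂ) * f t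

noncomputable def Gy (f : ℝ → ℂ) (q : ℝ × ℝ) : ℂ := ∫ t, (ky (q.1 - t) q.2 : ℂ) * f t

/-- `|∇ f|²` by the kernel formulas. -/
noncomputable def G2 (f : ℝ → ℂ) (q : ℝ × ℝ) : ℝ≥0∞ := ‖Gz f q‖ₑ ^ 2 + ‖Gy f q‖ₑ ^ 2

/-- Cone of aperture `a` with vertex `x`. -/
def cone (a x : ℝ) : Set (ℝ × ℝ) := {q | |q.1 - x| < a * q.2}

/-- The area function with aperture `a` of a function `G ≥ 0` on the half-plane. -/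
noncomputable def SG (a : ℝ) (G : ℝ × ℝ → ℝ≥0∞) (x : ℝ) : ℝ≥0∞ :=
  (∫⁻ q in cone a x, G q) ^ (1 / 2 : ℝ)

/-- The area function of `f`, aperture `1`. -/
noncomputable def SF (f : ℝ → ℂ) (x : ℝ) : ℝ≥0∞ := SG 1 (G2 f) x

/-! ### Packages -/

/-- PACKAGE DRV. -/
def S_drv : Prop := ∀ f : ℝ → ℂ, Integrable (fun x => f x / ((1 + x ^ 2 : ℝ) : ℂ)) →
  ∀ q : ℝ × ℝ, 0 < q.2 → gr f q = G2 f q

/-- PACKAGE SUB. -/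
def S_sub : Prop :=
  (∀ f : ℝ → ℂ, Integrable f → Measurable (SF f)) ∧
  (∀ f g : ℝ → ℂ, Integrable f → Integrable g → ∀ x, SF (fun y => f y + g y) x ≤ SF f x + SF g x) ∧
  (∀ b : ℕ → ℝ → ℂ, (∀ j, Integrable (b j)) → (∑' j, ∫⁻ y, ‖b j y‖ₑ) < ⊤ →
    ∀ x, SF (fun y => ∑' j, b j y) x ≤ ∑' j, SF (b j) x)

/-- PACKAGE L2. -/
def S_l2 : Prop := ∃ C : ℝ≥0∞, C < ⊤ ∧ ∀ f : ℝ → ℂ, Integrable f → (∫⁻ x, ‖f x‖ₑ ^ 2) < ⊤ →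
  (∫⁻ x, (SF f x) ^ 2) ≤ C * ∫⁻ x, ‖f x‖ₑ ^ 2

/-- PACKAGE WK: `S_sub → S_l2 → S_wk`. -/
def S_wk : Prop := ∃ C : ℝ≥0∞, C < ⊤ ∧ ∀ f : ℝ → ℂ, Integrable f → ∀ t : ℝ≥0∞,
  t * volume {x | t < SF f x} ≤ C * ∫⁻ y, ‖f y‖ₑ

/-- PACKAGE KRN. -/
def S_krn : Prop := ∃ C : ℝ≥0∞, C < ⊤ ∧ ∀ g : ℝ → ℂ, Integrable g → ∀ r : ℤ × ℤ,
  (∀ y ∈ D3 r, g y = 0) → ∀ x ∈ DD r, ∀ x' ∈ DD r,
    SF g x ≤ SF g x' + C * MM volume (fun y => ‖g y‖ₑ) x'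

/-- Abstract sublinear singular operators. -/
structure CZop (T : (ℝ → ℂ) → ℝ → ℝ≥0∞) : Prop where
  meas : ∀ f : ℝ → ℂ, Integrable f → Measurable (T f)
  sub : ∀ f g : ℝ → ℂ, Integrable f → Integrable g → ∀ x, T (fun y => f y + g y) x ≤ T f x + T g x
  weak : ∃ C : ℝ≥0∞, C < ⊤ ∧ ∀ f : ℝ → ℂ, Integrable f → ∀ t : ℝ≥0∞,
    t * volume {x | t < T f x} ≤ C * ∫⁻ y, ‖f y‖ₑ
  ker : ∃ C : ℝ≥0∞, C < ⊤ ∧ ∀ g : ℝ → ℂ, Integrable g → ∀ r : ℤ × ℤ, (∀ y ∈ D3 r, g y = 0) →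
    ∀ x ∈ DD r, ∀ x' ∈ DD r, T g x ≤ T g x' + C * MM volume (fun y => ‖g y‖ₑ) x'

/-- PACKAGE STEPT: `S_weak → S_stop → S_stepT`. -/
def S_stepT : Prop := ∀ T : (ℝ → ℂ) → ℝ → ℝ≥0∞, CZop T → ∃ C : ℝ≥0∞, C < ⊤ ∧
  ∀ f : ℝ → ℂ, Integrable f → ∀ q : ℤ × ℤ,
  ∃ F : Set (ℤ × ℤ), (∀ r ∈ F, DD r ⊆ DD q) ∧ F.PairwiseDisjoint DD ∧
    2 * volume (⋃ r ∈ F, DD r) ≤ volume (DD q) ∧
    (∀ᵐ x, x ∈ DD q → (∀ r ∈ F, x ∉ DD r) → T (lo f q) x ≤ C * av f q) ∧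
    ∀ r ∈ F, ∀ᵐ x, x ∈ DD r → T (lo f q) x ≤ T (lo f r) x + C * av f q

/-- PACKAGE ITERT: `S_stepT → S_iterT`. -/
def S_iterT : Prop := ∀ T : (ℝ → ℂ) → ℝ → ℝ≥0∞, CZop T → ∃ C : ℝ≥0∞, C < ⊤ ∧
  ∀ f : ℝ → ℂ, Integrable f → ∀ q : ℤ × ℤ,
  ∃ G : ℕ → Set (ℤ × ℤ), Sparse q G ∧ ∀ᵐ x, x ∈ DD q → T (lo f q) x ≤ C * SS f G x

/-- PACKAGE HMWT: `S_iterT → S_sum → S_hmwT`. -/
def S_hmwT : Prop := ∀ T : (ℝ → ℂ) → ℝ → ℝ≥0∞, CZop T → ∀ p : ℝ, 1 < p →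
  ∀ (w : ℝ → ℝ≥0∞) (K : ℝ≥0∞), ApC p w K →
  ∃ C : ℝ≥0∞, C < ⊤ ∧ ∀ f : ℝ → ℂ, Integrable f → (∃ R : ℝ, ∀ x, R < |x| → f x = 0) →
    (∫⁻ x, (T f x) ^ p * w x) ≤ C * ∫⁻ x, ‖f x‖ₑ ^ p * w x

/-- PACKAGE APE: `S_weak → S_ape` (change of aperture for `p < 2`). -/
def S_ape : Prop := ∀ p : ℝ, 0 < p → p < 2 → ∀ K : ℝ≥0∞, K < ⊤ → ∃ C : ℝ≥0∞, C < ⊤ ∧
  ∀ μ : Measure ℝ, (∀ a b : ℝ, μ (Ioo a b) < ⊤) → ∀ s a : ℝ, 0 ≤ s → 1 ≤ a →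
  (∀ x y : ℝ, 0 < y → μ (Ioo (x - a * y) (x + a * y)) ≤
    K * ENNReal.ofReal (a ^ s) * μ (Ioo (x - y) (x + y))) →
  ∀ G : ℝ × ℝ → ℝ≥0∞, Measurable G →
    (∫⁻ x, (SG a G x) ^ p ∂μ) ≤ C * ENNReal.ofReal (a ^ s) * ∫⁻ x, (SG 1 G x) ^ p ∂μ

/-- PACKAGE DEC. -/
def S_dec : Prop := ∀ l p : ℝ, 0 < l → 0 < p → p ≤ 2 → ∀ G : ℝ × ℝ → ℝ≥0∞, Measurable G → ∀ x : ℝ,
  (GS l G x) ^ p ≤ ENNReal.ofReal ((2 : ℝ) ^ (l * p / 2)) *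
    ∑' k : ℕ, ENNReal.ofReal ((2 : ℝ) ^ (-(k * (l * p / 2)))) * (SG ((2 : ℝ) ^ k) G x) ^ p

/-- PACKAGE OPN: the classes `B_r` are open. -/
def S_opn : Prop := ∀ r : ℝ, 0 < r → ∀ U : ℝ → ℝ≥0, IsWeight U → Br r U →
  ∃ s : ℝ, 0 ≤ s ∧ s < r ∧ ∃ K : ℝ≥0∞, K < ⊤ ∧ ∀ a x y : ℝ, 1 ≤ a → 0 < y →
    (∫⁻ t in Ioo (x - a * y) (x + a * y), (U t : ℝ≥0∞)) ≤
      K * ENNReal.ofReal (a ^ s) * ∫⁻ t in Ioo (x - y) (x + y), (U t : ℝ≥0∞)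

/-- PACKAGE APC: `A_p` weights are `A_p` weights in the sense of `HW.ApC`. -/
def S_apc : Prop := ∀ p : ℝ, 1 < p → ∀ U : ℝ → ℝ≥0, Ap p U →
  ∃ K : ℝ≥0∞, ApC p (fun x => (U x : ℝ≥0∞)) K

/-- PACKAGE INT: `S_apc → S_int`. -/
def S_int : Prop := ∀ p : ℝ, 1 < p → ∀ U : ℝ → ℝ≥0, Ap p U → ∀ f : ℝ → ℂ,
  AEStronglyMeasurable f volume → (∫⁻ x, ‖f x‖ₑ ^ p * (U x : ℝ≥0∞)) < ⊤ →
  Integrable (fun x => f x / ((1 + x ^ 2 : ℝ) : ℂ))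

/-- PACKAGE MES: joint measurability. -/
def S_mes : Prop := ∀ f : ℝ → ℂ, Integrable (fun x => f x / ((1 + x ^ 2 : ℝ) : ℂ)) → Measurable (G2 f)

/-- Compact support (helper481): `S_hmwT → S_ape → S_dec → S_opn → ... → S_cmp`. -/
def S_cmp : Prop := ∀ l p : ℝ, 1 < l → l ≤ 2 → 2 / l < p → p < 2 → ∀ U : ℝ → ℝ≥0, Ap p U →
  Br (l * p / 2) U → ∃ C : ℝ≥0∞, C < ⊤ ∧ ∀ f : ℝ → ℂ, Integrable f →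
    (∃ R : ℝ, ∀ x, R < |x| → f x = 0) →
    (∫⁻ x, (GS l (G2 f) x) ^ p * (U x : ℝ≥0∞)) ≤ C * ∫⁻ x, ‖f x‖ₑ ^ p * (U x : ℝ≥0∞)

/-- PACKAGE LIM: `S_drv → S_mes → S_cmp → S_suf`. -/
def S_suf : Prop := ∀ l p : ℝ, 1 < l → l ≤ 2 → 2 / l < p → p < 2 → ∀ U : ℝ → ℝ≥0, Ap p U →
  Br (l * p / 2) U → Good l p U

/-- PACKAGE NB: `S_drv → S_nb`. -/
def S_nb : Prop := ∀ l p : ℝ, 1 < l → 1 < p → ∀ U : ℝ → ℝ≥0, IsWeight U → Good l p U →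
  Br (l * p / 2) U

/-- PACKAGE NA: `S_drv → S_na`. -/
def S_na : Prop := ∀ l p : ℝ, 1 < l → 1 < p → ∀ U : ℝ → ℝ≥0, IsWeight U → Good l p U → Ap p U

/-- Assembly. -/
theorem assembly (h_weak : S_weak) (h_stop : S_stop) (h_sum : S_sum)
    (h_drv : S_drv) (h_sub : S_sub) (h_l2 : S_l2) (h_wk : S_sub → S_l2 → S_wk) (h_krn : S_krn)
    (h_step : S_weak → S_stop → S_stepT) (h_iter : S_stepT → S_iterT)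
    (h_hmw : S_iterT → S_sum → S_hmwT) (h_ape : S_weak → S_ape) (h_dec : S_dec) (h_opn : S_opn)
    (h_apc : S_apc) (h_int : S_apc → S_int) (h_mes : S_mes)
    (h_cmp : CZop SF → S_hmwT → S_ape → S_dec → S_opn → S_apc → S_mes → S_cmp)
    (h_lim : S_drv → S_mes → S_cmp → S_suf) (h_nb : S_drv → S_nb) (h_na : S_drv → S_na) :
    (∀ l p : ℝ, 1 < l → l ≤ 2 → 2 / l < p → p < 2 → ∀ U : ℝ → ℝ≥0, IsWeight U →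
      (Good l p U ↔ Ap p U ∧ Br (l * p / 2) U)) ∧ S_int := by
  have hcz : CZop SF := ⟨h_sub.1, h_sub.2.1, h_wk h_sub h_l2, h_krn⟩
  refine ⟨fun l p hl hl2 hp hp2 U hU => ⟨fun h => ?_, fun h => ?_⟩, h_int h_apc⟩
  · have h1 : 1 < p := by
      have h2 : 1 ≤ 2 / l := by rw [le_div_iff₀ (by linarith)]; linarith
      linarith
    exact ⟨h_na h_drv l p hl h1 U hU h, h_nb h_drv l p hl h1 U hU h⟩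
  · exact h_lim h_drv h_mes (h_cmp hcz (h_hmw (h_iter (h_step h_weak h_stop)) h_sum) (h_ape h_weak)
      h_dec h_opn h_apc h_mes) l p hl hl2 hp hp2 U h.1 h.2

end Pool.Agent.U481.GL
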